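import Pool.Agent.Helper28.TK.StW

/-!
# Project TK (all weights), module Map: `WSymH` and additive maps
-/

set_option autoImplicit false

namespace Pool.Agent.Helper67.TKW

open Pool.Agent.Helper28.TH (OkH ALPlus)

open Pool.Agent.Helper14.CV Pool.Agent.Helper28.WK Pool.Agent.Helper28.TK

section maps

variable {R S : Type} [AddCommGroup R] [AddCommGroup S]

private theorem pr_map (lam : R →+ S) (Φ : ℤ → ℤ → ℕ → R) (P : Polynomial ℤ) :
    pr (fun x y i => lam (Φ x y i)) P = fun x y => lam (pr Φ P x y) := by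
  funext x y
  simp only [pr, Polynomial.sum, map_sum, map_zsmul]

private theorem eqc_map (lam : R →+ S) {G H : ℤ → ℤ → R} (h : EqC G H) :
    EqC (fun x y => lam (G x y)) (fun x y => lam (H x y)) := by
  obtain ⟨c, hc⟩ := h
  exact ⟨lam c, fun p q hpq => by
    change lam (G p q) = lam (H p q) + lam c
    rw [hc p q hpq, map_add]⟩

private theorem eqc_unmap (lam : R →+ S) (hinj : Function.Injective lam) {G H : ℤ → ℤ → R}
    (h : EqC (fun x y => lam (G x y)) (fun x y => lam (H x y))) : EqC G H := by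
  obtain ⟨c, hc⟩ := h
  refine ⟨G 1 0 - H 1 0, fun p q hpq => hinj ?_⟩
  have h0 : lam (G 1 0) = lam (H 1 0) + c := hc 1 0 (Or.inl one_ne_zero)
  have h1 : lam (G p q) = lam (H p q) + c := hc p q hpq
  rw [map_add, map_sub, h1, h0]
  abel

private theorem WT_map (lam : R →+ S) (a l : ℕ) (m : ℤ) (Φ : ℤ → ℤ → ℕ → R) :
    WT a l m (fun x y i => lam (Φ x y i)) = fun x y i => lam (WT a l m Φ x y i) := by
  funext x y i
  simp only [WT, pr_map, map_add, map_sum, map_zsmul]

private theorem WTw_map (lam : R →+ S) (a : ℕ) (m : ℤ) (ls : List ℕ) (Φ : ℤ → ℤ → ℕ → R) :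
    WTw a m ls (fun x y i => lam (Φ x y i)) = fun x y i => lam (WTw a m ls Φ x y i) := by
  induction ls with
  | nil => rfl
  | cons l ls ih =>
    simp only [WTw]
    rw [ih, WT_map]

private theorem partA (lam : R →+ S) (p a ν : ℕ) (Φ : ℤ → ℤ → ℕ → R) (h : WSymH p a ν Φ) :
    WSymH p a ν (fun x y i => lam (Φ x y i)) where
  hom i hi := fun k x y hk hxy => congrArg lam (h.hom i hi k x y hk hxy)
  eqv α β γ δ hd hb h2 hc i hi := by
    rw [pr_map]
    exact eqc_map lam (h.eqv α β γ δ hd hb h2 hc i hi)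
  eqq α β γ δ hd h1 h2 h3 hb hc i hi := by
    have := eqc_map lam (h.eqq α β γ δ hd h1 h2 h3 hb hc i hi)
    simp only [Pi.smul_apply, map_zsmul] at this
    rw [pr_map]
    exact this
  tt j hj := by
    have := eqc_map lam (h.tt j hj)
    simp only [map_sum, Pi.zero_apply, map_zero] at this
    simp only [pr_map]
    exact this
  ss j hj := by
    have := eqc_map lam (h.ss j hj)
    simp only [map_sum, Pi.zero_apply, map_zero] at this
    simp only [pr_map]
    exact this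
  fr := by
    have := eqc_map lam h.fr
    simp only [Pi.neg_apply, map_neg] at this
    exact this
  st := eqc_map lam h.st
  hk M hM ls hls := by
    rw [WTw_map]
    exact congrArg lam (h.hk M hM ls hls)

private theorem partB (lam : R →+ S) (hinj : Function.Injective lam) (p a ν : ℕ)
    (Φ : ℤ → ℤ → ℕ → R) (h : WSymH p a ν (fun x y i => lam (Φ x y i))) : WSymH p a ν Φ where
  hom i hi := fun k x y hk hxy => hinj (h.hom i hi k x y hk hxy)
  eqv α β γ δ hd hb h2 hc i hi := by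
    have := h.eqv α β γ δ hd hb h2 hc i hi
    rw [pr_map] at this
    exact eqc_unmap lam hinj this
  eqq α β γ δ hd h1 h2 h3 hb hc i hi := by
    have := h.eqq α β γ δ hd h1 h2 h3 hb hc i hi
    rw [pr_map] at this
    refine eqc_unmap lam hinj ?_
    simp only [Pi.smul_apply, map_zsmul]
    exact this
  tt j hj := by
    have := h.tt j hj
    simp only [pr_map] at this
    refine eqc_unmap lam hinj ?_
    simp only [map_sum, Pi.zero_apply, map_zero]
    exact this
  ss j hj := by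
    have := h.ss j hj
    simp only [pr_map] at this
    refine eqc_unmap lam hinj ?_
    simp only [map_sum, Pi.zero_apply, map_zero]
    exact this
  fr := by
    refine eqc_unmap lam hinj ?_
    simp only [Pi.neg_apply, map_neg]
    exact h.fr
  st := eqc_unmap lam hinj h.st
  hk M hM ls hls := by
    have := h.hk M hM ls hls
    rw [WTw_map] at this
    exact hinj this

/-! ### part (c) -/

private theorem pr_eqc {a : ℕ} {Φ Φ' : ℤ → ℤ → ℕ → R}
    (h : ∀ i : ℕ, i ≤ 2 * a → EqC (cp Φ' i) (cp Φ i)) (P : Polynomial ℤ)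
    (hP : P.natDegree ≤ 2 * a) : EqC (pr Φ' P) (pr Φ P) := by
  rw [pr_eq_sum Φ' P (2 * a + 1) (by omega), pr_eq_sum Φ P (2 * a + 1) (by omega)]
  exact EqC.sum _ fun i hi => (h i (by have := Finset.mem_range.mp hi; omega)).smul _

private theorem deg1 (α β : ℤ) :
    (Polynomial.C α * Polynomial.X + Polynomial.C β).natDegree ≤ 1 :=
  Polynomial.natDegree_linear_le

private theorem deg_eqv (α β γ δ : ℤ) (i a : ℕ) (hi : i ≤ 2 * a) :
    ((Polynomial.C α * Polynomial.X + Polynomial.C β) ^ i *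
      (Polynomial.C γ * Polynomial.X + Polynomial.C δ) ^ (2 * a - i)).natDegree ≤ 2 * a := by
  have h1 : ((Polynomial.C α * Polynomial.X + Polynomial.C β) ^ i).natDegree ≤ i * 1 :=
    Polynomial.natDegree_pow_le_of_le i (deg1 α β)
  have h2 : ((Polynomial.C γ * Polynomial.X + Polynomial.C δ) ^ (2 * a - i)).natDegree ≤
      (2 * a - i) * 1 := Polynomial.natDegree_pow_le_of_le _ (deg1 γ δ)
  have h3 := Polynomial.natDegree_mul_le_of_le h1 h2
  omega

private theorem tt_form (p : ℕ) (Φ : ℤ → ℤ → ℕ → R) (P : ℕ → Polynomial ℤ) :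
    (fun x y => ∑ i ∈ Finset.range p, pr Φ (P i) (x + i * y) y) =
      ∑ i ∈ Finset.range p, act 1 (i : ℤ) 0 1 (pr Φ (P i)) := by
  funext x y
  simp only [Finset.sum_apply, act, one_mul, zero_mul, zero_add]

private theorem ss_form (p : ℕ) (c : ℕ → ℤ) (Φ : ℤ → ℤ → ℕ → R) (P : ℕ → Polynomial ℤ) :
    (fun x y => ∑ i ∈ Finset.range p, pr Φ (P i) x (c i * x + y)) =
      ∑ i ∈ Finset.range p, act 1 0 (c i) 1 (pr Φ (P i)) := by
  funext x y
  simp only [Finset.sum_apply, act, one_mul, zero_mul, add_zero]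

private theorem WT_eqc {a : ℕ} {Φ Φ' : ℤ → ℤ → ℕ → R} {l : ℕ} (hl : 0 < l) (m : ℤ)
    (h : ∀ i : ℕ, i ≤ 2 * a → EqC (cp Φ' i) (cp Φ i)) :
    ∀ i : ℕ, i ≤ 2 * a → EqC (cp (WT a l m Φ') i) (cp (WT a l m Φ) i) := by
  intro i hi
  have hl' : (l : ℤ) ≠ 0 := by exact_mod_cast hl.ne'
  have hform : ∀ Ψ : ℤ → ℤ → ℕ → R, cp (WT a l m Ψ) i =
      (∑ j ∈ Finset.range l, act 1 (m * j) 0 (l : ℤ)
        (pr Ψ ((Polynomial.C (l : ℤ) * Polynomial.X - Polynomial.C (m * j)) ^ i))) +
      ((l : ℤ) ^ (2 * a - i)) • act (l : ℤ) 0 0 1 (cp Ψ i) := by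
    intro Ψ
    funext x y
    simp only [cp, WT, Finset.sum_apply, Pi.add_apply, Pi.smul_apply, act, one_mul, zero_mul,
      zero_add, add_zero]
  rw [hform, hform]
  refine EqC.add (EqC.sum _ fun j _ => ?_) (EqC.smul _ ?_)
  · refine EqC.act (pr_eqc h _ ?_) (by simpa using hl')
    have h1 : (Polynomial.C (l : ℤ) * Polynomial.X - Polynomial.C (m * (j : ℤ))).natDegree ≤ 1 := by
      rw [sub_eq_add_neg, ← Polynomial.C_neg]
      exact deg1 _ _
    have h2 := Polynomial.natDegree_pow_le_of_le i h1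
    omega
  · exact EqC.act (h i hi) (by simpa using hl')

private theorem WTw_eqc {p a : ℕ} {Φ Φ' : ℤ → ℤ → ℕ → R} (m : ℤ)
    (h : ∀ i : ℕ, i ≤ 2 * a → EqC (cp Φ' i) (cp Φ i)) (ls : List ℕ) (hls : OkH 3 p ls) :
    ∀ i : ℕ, i ≤ 2 * a → EqC (cp (WTw a m ls Φ') i) (cp (WTw a m ls Φ) i) := by
  induction ls with
  | nil => exact h
  | cons l ls ih =>
    have hl : 0 < l := (hls l (List.mem_cons_self)).1.pos
    exact WT_eqc hl m (ih fun q hq => hls q (List.mem_cons_of_mem _ hq))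

private theorem partC (p a ν : ℕ) (hp : p ≠ 0) (Φ Φ' : ℤ → ℤ → ℕ → R)
    (h : ∀ i : ℕ, i ≤ 2 * a → EqC (cp Φ' i) (cp Φ i)) (hΦ : WSymH p a ν Φ) :
    WSymH p a ν Φ' where
  hom i hi := by
    obtain ⟨c, hc⟩ := h i hi
    intro k x y hk hxy
    have hk' : k * x ≠ 0 ∨ k * y ≠ 0 := by
      rcases hxy with hx | hy
      · exact Or.inl (mul_ne_zero hk hx)
      · exact Or.inr (mul_ne_zero hk hy)
    rw [hc _ _ hk', hc _ _ hxy, hΦ.hom i hi k x y hk hxy]
  eqv α β γ δ hd hb h2 hc i hi :=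
    ((h i hi).act (by rw [hd]; exact one_ne_zero)).trans
      ((hΦ.eqv α β γ δ hd hb h2 hc i hi).trans (pr_eqc h _ (deg_eqv α β γ δ i a hi)).symm)
  eqq α β γ δ hd h1 h2 h3 hb hc i hi :=
    (((h i hi).act (by rw [hd]; exact three_ne_zero)).smul _).trans
      ((hΦ.eqq α β γ δ hd h1 h2 h3 hb hc i hi).trans (pr_eqc h _ (deg_eqv α β γ δ i a hi)).symm)
  tt j hj := by
    refine EqC.trans ?_ (hΦ.tt j hj)
    rw [tt_form p Φ', tt_form p Φ]
    refine EqC.sum _ fun i _ => EqC.act (pr_eqc h _ ?_) (by simp)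
    have h1 : (Polynomial.X - Polynomial.C (i : ℤ)).natDegree ≤ 1 := by
      exact (Polynomial.natDegree_X_sub_C_le _)
    have h2 := Polynomial.natDegree_pow_le_of_le j h1
    omega
  ss j hj := by
    refine EqC.trans ?_ (hΦ.ss j hj)
    rw [ss_form p (fun i => 3 * (p : ℤ) ^ ν * i) Φ', ss_form p (fun i => 3 * (p : ℤ) ^ ν * i) Φ]
    refine EqC.sum _ fun i _ => EqC.act (pr_eqc h _ ?_) (by simp)
    have h0 : (1 - Polynomial.C (3 * (p : ℤ) ^ ν * (i : ℤ)) * Polynomial.X).natDegree ≤ 1 := by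
      have := deg1 (-(3 * (p : ℤ) ^ ν * (i : ℤ))) 1
      rwa [Polynomial.C_neg, Polynomial.C_1, neg_mul, neg_add_eq_sub] at this
    have h1 := Polynomial.natDegree_pow_le_of_le (2 * a - j) h0
    have h2 : (Polynomial.X ^ j : Polynomial ℤ).natDegree ≤ j := Polynomial.natDegree_X_pow_le j
    have h3 := Polynomial.natDegree_mul_le_of_le h2 h1
    omega
  fr := by
    have hdet : (0 : ℤ) * 0 - (-1) * (3 * (p : ℤ) ^ ν) ≠ 0 := by
      have : (p : ℤ) ^ ν ≠ 0 := pow_ne_zero _ (by exact_mod_cast hp)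
      simpa using this
    exact ((h a (by omega)).act hdet).trans (hΦ.fr.trans (h a (by omega)).neg.symm)
  st := ((h a (by omega)).act (by norm_num)).trans (hΦ.st.trans (h a (by omega)).symm)
  hk M hM ls hls := by
    have h1 := WTw_eqc ((p : ℤ) ^ M) h ls hls a (by omega)
    have h2 := h1.diff (p := 1) (q := 0) (p' := 0) (q' := 1) (Or.inl one_ne_zero)
      (Or.inr one_ne_zero)
    have h3 := hΦ.hk M hM ls hls
    simp only [cp] at h2
    rw [h3, sub_self] at h2
    exact sub_eq_zero.mp h2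

end maps

theorem hMap : SHMap :=
  fun p a ν hp _ _ _ _ lam Φ => ⟨partA lam p a ν Φ, fun hinj => partB lam hinj p a ν Φ,
    fun Φ' h hΦ => partC p a ν hp Φ Φ' h hΦ⟩

end Pool.Agent.Helper67.TKW
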